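import Pool.Agent.MP_3ce0a0_al.H79.Y3B

/-
The first half of the central case in rank three.
-/

namespace Pool.Agent.MP_3ce0a0_al.H79.Y

open Equiv Module Pool.Agent.MP_3ce0a0_al.H79.X

namespace H73

variable {H : Type} [AddCommGroup H] [Module ℂ H] {N : NS (Fin 3) (GH H)} {e : Fin 3 → H} {σ : ℂ}

lemma D_comm (hc : Cen N) {a b : Fin 3} (h : a ≠ b) (v : H) :
    DD N.toWS (N.ρ a b v) = N.ρ a b (DD N.toWS v) := by
  have h1 := lam_eq N h
  rw [hc a b h] at h1
  have h2 : DD N.toWS * N.ρ a b = N.ρ a b * DD N.toWS := by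
    conv_lhs => rw [h1]
    rw [← mul_assoc, ← mul_assoc, DD_sq, one_mul]
  exact gap h2 v

lemma ε_oth {a b c : Fin 3} (d : D3 a b c) (v : H) :
    N.ε c (N.ρ a b v) = N.ρ a b (N.ε c v) := gap (N.ε_other a b c d.1 d.2.1 d.2.2).eq v

lemma ee (h : DA N.toWS e σ) (a : Fin 3) : N.ε a (e a) = -e a := Se_neg (h.2.1 a).2 (by simp)

lemma eo (h : DA N.toWS e σ) {a b : Fin 3} (k : a ≠ b) : N.ε a (e b) = e b :=
  Se_pos (h.2.1 b).2 (by simpa using k)

lemma eg {g : H} (hg : g ∈ Se N.toWS Finset.univ) (a : Fin 3) : N.ε a g = -g :=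
  Se_neg hg (by simp)

/-- the plane of the first two vectors is invariant. -/
lemma plane (hc : Cen N) (h : DA N.toWS e σ) {a b c i : Fin 3} (d : D3 a b c) (hi : c ≠ i) :
    ∃ x y : ℂ, N.ρ a b (e i) = x • e a + y • e b := by
  obtain ⟨x, y, u, hu, k⟩ := h.pos d (v := N.ρ a b (e i)) (by rw [ε_oth d, eo h hi])
  have h1 := D_comm hc d.1 (e i)
  rw [DD_one (h.2.1 i).2, map_neg, k] at h1
  simp only [map_add, map_smul, DD_one (h.2.1 a).2, DD_one (h.2.1 b).2, DD_zero hu] at h1
  have : u = 0 := half (by linear_combination (norm := module) h1)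
  exact ⟨x, y, by rw [k, this, add_zero]⟩

lemma πρ (h : DA N.toWS e σ) (p : Perm (Fin 3)) {a b : Fin 3} (k : a ≠ b) (i : Fin 3) :
    N.ρ (p a) (p b) (e (p i)) = sg σ p • N.π p (N.ρ a b (e i)) := by
  have h1 := gap (N.π_ρ p a b k) (e i)
  rw [gmul, gmul, h.2.2.1, map_smul] at h1
  rw [h1, smul_smul, sg_sq h.sq, one_smul]

lemma πuniv (p : Perm (Fin 3)) {g : H} (hg : g ∈ Se N.toWS Finset.univ) :
    N.π p g ∈ Se N.toWS Finset.univ := by
  simpa using π_Se p hg

/-- the constants do not depend on the triple. -/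
lemma consts (hc : Cen N) (h : DA N.toWS e σ) : ∃ x y y' w z : ℂ, ∀ a b c, D3 a b c →
    N.ρ a b (e a) = x • e a + y • e b ∧ N.ρ a b (e b) = y' • e a + w • e b ∧
      N.ρ a b (e c) - z • e c ∈ Se N.toWS Finset.univ := by
  have d : D3 0 1 2 := by unfold D3; decide
  obtain ⟨x, y, h1⟩ := plane hc h d (i := 0) (by decide)
  obtain ⟨y', w, h2⟩ := plane hc h d (i := 1) (by decide)
  obtain ⟨z, g, hg, h3⟩ := h.neg (c := 2) (v := N.ρ 0 1 (e 2)) (by rw [ε_oth d, ee h, map_neg])
  refine ⟨x, y, y', w, z, fun a b c d' => ?_⟩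
  obtain ⟨p, rfl, rfl, rfl⟩ := d.trans d'
  have s := sg_sq h.sq p
  refine ⟨?_, ?_, ?_⟩
  · rw [πρ h p d.1, h1]
    simp only [map_add, map_smul, h.2.2.1]
    linear_combination (norm := module) s • (x • e (p 0) + y • e (p 1))
  · rw [πρ h p d.1, h2]
    simp only [map_add, map_smul, h.2.2.1]
    linear_combination (norm := module) s • (y' • e (p 0) + w • e (p 1))
  · have : N.ρ (p 0) (p 1) (e (p 2)) - z • e (p 2) = sg σ p • N.π p g := by
      rw [πρ h p d.1, h3]
      simp only [map_add, map_smul, h.2.2.1]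
      linear_combination (norm := module) s • (z • e (p 2))
    rw [this]
    exact Submodule.smul_mem _ _ (πuniv p hg)

end H73

open H73 in
theorem sg1 : SG1 := by
  intro H _ _ _ N e σ hc h hne
  obtain ⟨x, y, y', w, z, k⟩ := consts hc h
  have z0 := Submodule.zero_mem (Se N.toWS ∅)
  have z1 := Submodule.zero_mem (Se N.toWS Finset.univ)
  have hy : y ≠ 0 := by
    rintro rfl
    obtain ⟨a, b, hab, hn⟩ := hne
    obtain ⟨c, d⟩ := D3.ex hab
    apply hn
    rw [(k a b c d).1, zero_smul, add_zero]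
    exact Submodule.smul_mem _ _ (Submodule.mem_span_singleton_self _)
  have d0 : D3 0 1 2 := by unfold D3; decide
  -- the inverse relation
  have r1 : x * x - y * y' = 1 ∧ w = x := by
    have q : N.ε 1 * N.ρ 0 1 * N.ε 1 * N.ρ 0 1 = 1 := by
      rw [N.ε_right 0 1 d0.1, inv_mul_cancel]
    have q1 := gap q (e 0)
    simp only [gmul, gone, (k 0 1 2 d0).1, (k 0 1 2 d0).2.1, map_add, map_smul, map_neg, ee h,
      eo h d0.1.symm] at q1
    have := h.uniq d0 (x := x * x - y * y' - 1) (y := y * (w - x)) (z := 0) z0 z1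
      (by linear_combination (norm := module) q1)
    exact ⟨by linear_combination this.1, by
      have := (mul_eq_zero.1 this.2.1).resolve_left hy
      linear_combination this⟩
  obtain ⟨r1, rfl⟩ := r1
  set G : Fin 3 → Fin 3 → Fin 3 → H := fun a b c => N.ρ a b (e c) - z • e c with hG
  have kG : ∀ a b c, N.ρ a b (e c) = z • e c + G a b c := fun a b c => by simp [hG]
  have mG : ∀ a b c, D3 a b c → G a b c ∈ Se N.toWS Finset.univ := fun a b c d => (k a b c d).2.2
  -- commuting in the same column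
  have r2 : ∀ a b c, D3 a b c →
      N.ρ c b (G a b c) = w • G a b c + (y * y') • e a + (y * (w - z)) • e b := fun a b c d => by
    have q := gap (ρ_ρ_col N d).eq (e c)
    have d' := d.perm.2.2.1
    rw [gmul, gmul, (k c b a d').1, kG a b c] at q
    simp only [map_add, map_smul, (k c b a d').1, (k a b c d).2.1] at q
    rw [kG a b c] at q
    linear_combination (norm := module) -q
  have r3 : z = w := by
    have q := ε_oth (N := N) d0.perm.2.2.1 (G 0 1 2)
    rw [eg (mG _ _ _ d0), map_neg, r2 _ _ _ d0] at q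
    simp only [map_add, map_smul, eg (mG _ _ _ d0), ee h, eo h d0.1] at q
    have := h.uniq d0 (x := 0) (y := 2 * (y * (w - z))) (z := 0) z0 z1
      (by linear_combination (norm := module) q)
    have := (mul_eq_zero.1 ((mul_eq_zero.1 this.2.1).resolve_left two_ne_zero)).resolve_left hy
    linear_combination -this
  subst r3
  -- commuting in the same row
  have r4 : ∀ a b c, D3 a b c → G a b c = G a c b := fun a b c d => by
    have d' := d.perm.2.1
    have q0 := ρ_lam_same N d.1 d'.1
    rw [hc a c d'.1] at q0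
    have q := gap q0.eq (e a)
    rw [gmul, gmul, (k a c b d').1, (k a b c d).1] at q
    simp only [map_add, map_smul, (k a c b d').1, (k a b c d).1] at q
    rw [kG a b c, kG a c b] at q
    have : y • (G a b c - G a c b) = 0 := by linear_combination (norm := module) q
    exact sub_eq_zero.1 ((smul_eq_zero.1 this).resolve_left hy)
  -- the Steinberg relation
  have r5 : ∀ a b c, D3 a b c → z * z = z * z * z + y * y' * y' ∧
      z * y = z * z * y + y * y' * z ∧
      z • N.ρ c a (G a b c) = z • G a b c - (z * y) • G c a b + (y * y - z * z * y) • e b :=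
    fun a b c d => by
    have d1 := d.perm.2.2.2.2
    have d2 := d.perm.2.2.1
    obtain ⟨t, g', hg', ht⟩ := h.neg (c := b) (v := N.ρ c a (G a b c))
      (by rw [ε_oth d1, eg (mG _ _ _ d), map_neg])
    have q := gap (stein N d) (e c)
    rw [gmul, gmul, gmul, (k c a b d1).1, (k c b a d2).1] at q
    simp only [map_add, map_smul, (k a b c d).1, (k a b c d).2.1] at q
    rw [kG a b c] at q
    simp only [map_add, map_smul, (k c a b d1).1, (k c a b d1).2.1] at q
    rw [kG c a b, ht] at q
    have := h.uniq d (x := z * y - (z * z * y + y * y' * z)) (y := y * y - z * t - z * z * y)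
      (z := z * z - (z * z * z + y * y' * y')) z0
      (g := z • G a b c - z • g' - (z * y) • G c a b)
      (Submodule.sub_mem _ (Submodule.sub_mem _ (Submodule.smul_mem _ _ (mG _ _ _ d))
        (Submodule.smul_mem _ _ hg')) (Submodule.smul_mem _ _ (mG _ _ _ d1)))
      (by linear_combination (norm := module) q)
    obtain ⟨t1, t2, t3, -, t4⟩ := this
    refine ⟨by linear_combination t3, by linear_combination t1, ?_⟩
    rw [ht]
    linear_combination (norm := module) -t4 - t2 • e b
  obtain ⟨s1, s2, -⟩ := r5 0 1 2 d0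
  have hz : z = 1 ∧ y' = 0 := by
    have hz0 : z ≠ 0 := by
      rintro rfl
      have a1 : y * y' = -1 := by linear_combination -r1
      have a2 : y' = 0 := by linear_combination s1 + y' * a1
      rw [a2] at a1
      norm_num at a1
    have a3 : y' = 1 - z := by
      have : z * y * (y' - (1 - z)) = 0 := by linear_combination -s2
      have := (mul_eq_zero.1 this).resolve_left (mul_ne_zero hz0 hy)
      linear_combination this
    have a4 : z = 1 := by
      have a5 : y * y' = z * z - 1 := by linear_combination -r1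
      rw [a5, a3] at s1
      linear_combination -s1
    exact ⟨a4, by rw [a3, a4, sub_self]⟩
  obtain ⟨rfl, rfl⟩ := hz
  -- the Gersten relation
  have r6 : y * y = 1 ∧ y = σ := by
    have q0 := N.gersten 0 1 d0.1
    rw [hc 0 1 d0.1, ρ_inv N d0.1.symm] at q0
    have q := gap q0 (e 1)
    simp only [gmul, (k 0 1 2 d0).1, (k 0 1 2 d0).2.1, (k 1 0 2 d0.perm.1).1, map_add, map_smul,
      map_neg, ee h, eo h d0.1, h.2.2.1, sg_swap σ d0.1, swap_apply_right, zero_smul, zero_add,
      one_smul] at q
    have := h.uniq d0 (x := σ - y) (y := 1 - y * y) (z := 0) z0 z1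
      (by linear_combination (norm := module) q)
    exact ⟨by linear_combination -this.2.1, by linear_combination -this.1⟩
  obtain ⟨r6, rfl⟩ := r6
  have dd : ∀ a : Fin 3, D3 a (a + 1) (a + 2) := by unfold D3; decide
  have gG : ∀ a b c, D3 a b c → G a b c = G a (a + 1) (a + 2) := fun a b c d => by
    have : (b = a + 1 ∧ c = a + 2) ∨ (c = a + 1 ∧ b = a + 2) := by
      revert d; unfold D3; revert a b c; decide
    rcases this with ⟨rfl, rfl⟩ | ⟨rfl, rfl⟩
    · rfl
    · exact r4 _ _ _ d
  refine ⟨fun a => G a (a + 1) (a + 2), fun i => mG _ _ _ (dd i), fun p i => ?_,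
    fun a b c d => ⟨?_, ?_, ?_, ?_, ?_, ?_⟩⟩
  · beta_reduce
    rw [← gG _ _ _ ((dd i).map p)]
    simp only [hG, map_sub, one_smul, h.2.2.1]
    rw [πρ h p (dd i).1, smul_sub, smul_smul, sg_sq h.sq, one_smul]
  · rw [(k a b c d).1, one_smul]
  · rw [(k a b c d).2.1, zero_smul, zero_add, one_smul]
  · rw [kG a b c, one_smul, gG _ _ _ d]
  · have q0 : N.ε a * N.ρ a b * N.ε a * N.ρ a b = 1 := by
      rw [N.ε_left a b d.1, hc a b d.1, inv_mul_cancel]
    have q := gap q0 (e c)
    simp only [gmul, gone] at q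
    rw [kG a b c] at q
    simp only [map_add, one_smul, eo h d.2.1.symm, eg (mG _ _ _ d), map_neg] at q
    rw [kG a b c] at q
    simp only [map_add, one_smul, eo h d.2.1.symm, eg (mG _ _ _ d)] at q
    have q1 : N.ε a (N.ρ a b (G a b c)) = -G a b c := by linear_combination (norm := module) -q
    have q2 := congrArg (N.ε a) q1
    rw [εε, map_neg, eg (mG _ _ _ d), neg_neg] at q2
    simpa only [← gG _ _ _ d] using q2
  · have q := (r5 b c a d.perm.2.2.2.1).2.2
    rw [gG _ _ _ d.perm.2.2.2.1, gG _ _ _ d] at q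
    linear_combination (norm := module) q + r6 • e c
  · have q := r2 c b a d.perm.2.2.1
    rw [gG _ _ _ d.perm.2.2.1] at q
    linear_combination (norm := module) q

end Pool.Agent.MP_3ce0a0_al.H79.Y
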